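import Pool.Agent.Lib_helper46.Chrom.NSDefs

/-!
# Section 5.7 of note 1214: the case `|Y| = 1`
-/

open Finset

namespace Pool.Agent.Chrom

namespace YoneAux

variable {V : Type} [Fintype V] [DecidableEq V]

set_option linter.unusedSectionVars false

variable {A : Finset V → Prop} {D f g : Finset V} {a b d q u v w y z : V}

lemma mem_cases (hs : Str A a D f) (hy : f ∩ comp (gr A) D a = {y}) (hv : v ∈ f) :
    v = y ∨ (v ∉ D ∧ v ∉ comp (gr A) D a) := by
  by_cases hC : v ∈ comp (gr A) D a
  · left
    have : v ∈ f ∩ comp (gr A) D a := mem_inter.2 ⟨hv, hC⟩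
    rw [hy, mem_singleton] at this
    exact this
  · exact Or.inr ⟨Finset.disjoint_right.1 hs.cross.disj hv, hC⟩

lemma y_mem (hy : f ∩ comp (gr A) D a = {y}) : y ∈ f ∧ y ∈ comp (gr A) D a := by
  have : y ∈ f ∩ comp (gr A) D a := by rw [hy]; exact mem_singleton_self y
  exact mem_inter.1 this

lemma card_f (hs : Str A a D f) (hy : f ∩ comp (gr A) D a = {y}) : f.card = D.card := by
  have h1 : f \ comp (gr A) D a = univ \ (D ∪ comp (gr A) D a) := by
    ext v
    simp only [mem_sdiff, mem_univ, true_and, mem_union, not_or]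
    constructor
    · rintro ⟨hv, hC⟩
      exact ⟨Finset.disjoint_right.1 hs.cross.disj hv, hC⟩
    · rintro ⟨hD, hC⟩
      exact ⟨hs.zf v hD hC, hC⟩
  have h2 := card_inter_add_card_sdiff f (comp (gr A) D a)
  rw [h1, hy, card_singleton] at h2
  have := hs.card
  omega

lemma cover (h : NC A) (hs : Str A a D f) (hy : f ∩ comp (gr A) D a = {y}) (hv : v ∉ f) :
    ∃ d ∈ D, (del (gr A) f).Reachable d v := by
  classical
  have h0 := hs.cross.zeroT h
  have hk : kk (gr A) f = D.card := by
    unfold cc at h0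
    rw [card_f hs hy] at h0
    omega
  have hinj : Set.InjOn (comp (gr A) f) (D : Set V) := by
    intro p hp q hq hpq
    by_contra hne
    refine hs.sep p hp q hq hne ?_
    rw [← mem_comp, hpq]
    exact self_mem_comp q
  have hsub : D.image (comp (gr A) f) ⊆ comps (gr A) f := by
    intro E hE
    obtain ⟨p, hp, rfl⟩ := mem_image.1 hE
    exact comp_mem_comps (Finset.disjoint_left.1 hs.cross.disj hp)
  have heq : D.image (comp (gr A) f) = comps (gr A) f := by
    refine eq_of_subset_of_card_le hsub ?_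
    rw [card_image_of_injOn hinj]
    exact hk.le
  have hm : comp (gr A) f v ∈ D.image (comp (gr A) f) := by rw [heq]; exact comp_mem_comps hv
  obtain ⟨p, hp, hpv⟩ := mem_image.1 hm
  refine ⟨p, hp, ?_⟩
  rw [← mem_comp, hpv]
  exact self_mem_comp v

/-- the points of `C \ {y}` which lie in the component of `d` in `G - f` form a closed set
of `G - {y, d}` -/
lemma comp_sub (hs : Str A a D f) (ha : a ∉ D) (hy : f ∩ comp (gr A) D a = {y}) (hd : d ∈ D)
    (hq : q ∈ comp (gr A) D a) (hqy : q ≠ y) (hdq : (del (gr A) f).Reachable d q)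
    (hv : v ∈ comp (gr A) {y, d} q) :
    v ∈ comp (gr A) D a ∧ v ≠ y ∧ (del (gr A) f).Reachable d v := by
  classical
  set P : Finset V := (comp (gr A) D a).filter fun v => v ≠ y ∧ v ∈ comp (gr A) f d with hP
  have hdf : d ∉ f := Finset.disjoint_left.1 hs.cross.disj hd
  have hcl : Closed (gr A) {y, d} P := by
    intro p hp r hpr hr
    rw [hP, mem_filter] at hp ⊢
    obtain ⟨hpC, hpy, hpf⟩ := hp
    rw [mem_insert, mem_singleton, not_or] at hr
    -- `r ∉ f` or `r` outside
    have hrD : r ∉ D := by
      intro hrD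
      have hrf : r ∉ f := Finset.disjoint_left.1 hs.cross.disj hrD
      have h1 : r ∈ comp (gr A) f d := comps_closed (comp_mem_comps hdf) hpf hpr hrf
      rw [mem_comp] at h1
      exact hs.sep d hd r hrD (fun he => hr.2 he.symm) h1
    have hrC : r ∈ comp (gr A) D a := comps_closed (comp_mem_comps ha) hpC hpr hrD
    have hrf : r ∉ f := by
      intro hrf
      have : r ∈ f ∩ comp (gr A) D a := mem_inter.2 ⟨hrf, hrC⟩
      rw [hy, mem_singleton] at this
      exact hr.1 this
    exact ⟨hrC, hr.1, comps_closed (comp_mem_comps hdf) hpf hpr hrf⟩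
  have hqP : q ∈ P := by
    rw [hP, mem_filter]
    exact ⟨hq, hqy, mem_comp.2 hdq⟩
  have := (reachable_closed hcl hqP (mem_comp.1 hv)).1
  rw [hP, mem_filter] at this
  exact ⟨this.1, this.2.1, mem_comp.1 this.2.2⟩

lemma b_not_mem (hr : Root A a b) (hB : Big A a D) : b ∉ comp (gr A) D a := by
  intro hb
  rcases hr D hB.tight with h | h | h
  · exact hB.na h
  · exact Finset.disjoint_left.1 (comp_disjoint hB.na) hb h
  · exact h (mem_comp.1 hb)

lemma exists_z (hs : Str A a D f) (h3 : 3 ≤ D.card) : ∃ z, z ∉ D ∧ z ∉ comp (gr A) D a := by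
  have := hs.card
  have hpos : 0 < (univ \ (D ∪ comp (gr A) D a)).card := by omega
  obtain ⟨z, hz⟩ := card_pos.1 hpos
  simp only [mem_sdiff, mem_univ, true_and, mem_union, not_or] at hz
  exact ⟨z, hz⟩

/-- a member which contains a point outside `D` and a point in the component of `a` and is
disjoint from `D` contains all points outside `D` and outside the component of `a` -/
lemma all_z (h : NC A) (hB : Big A a D) (hs : Str A a D f) (hg : Mem A g) (hd : Disjoint D g)
    (hu : u ∈ g) (hv : v ∈ g) (huv : ¬ (del (gr A) D).Reachable u v) (hz : z ∉ D)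
    (hzC : z ∉ comp (gr A) D a) : z ∈ g := by
  classical
  have hc : Cross A D g := cross_of_not_reachable hd (hB.tight.qt h) (hg.qt h) hu hv huv
  -- the parts of `D` are single
  have hsingle : ∀ p ∈ D, ∀ r ∈ D, p ≠ r → ¬ (del (gr A) g).Reachable p r := by
    intro p hp r hr hne hreach
    have hpg : p ∉ g := Finset.disjoint_left.1 hd hp
    have h2 : 2 ≤ (D ∩ comp (gr A) g p).card := by
      have hsub : ({p, r} : Finset V) ⊆ D ∩ comp (gr A) g p := by
        intro x hx
        rw [mem_insert, mem_singleton] at hx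
        rcases hx with rfl | rfl
        · exact mem_inter.2 ⟨hp, self_mem_comp x⟩
        · exact mem_inter.2 ⟨hr, mem_comp.2 hreach⟩
      calc 2 = ({p, r} : Finset V).card := (card_pair hne).symm
        _ ≤ _ := card_le_card hsub
    have ht := (hc.symm h).part_tight h (comp_mem_comps hpg) h2
    refine hB.min _ ?_ ht
    exact (hc.symm h).part_ssub (comp_mem_comps hpg) (card_pos.1 (by omega))
  have hcard : D.card ≤ (meetComps (gr A) g D).card := by
    have hinj : Set.InjOn (comp (gr A) g) (D : Set V) := by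
      intro p hp q hq hpq
      by_contra hne
      refine hsingle p hp q hq hne ?_
      rw [← mem_comp, hpq]
      exact self_mem_comp q
    rw [← card_image_of_injOn hinj]
    refine card_le_card ?_
    intro E hE
    obtain ⟨p, hp, rfl⟩ := mem_image.1 hE
    refine mem_meetComps.2 ⟨comp_mem_comps (Finset.disjoint_left.1 hd hp), ?_⟩
    rw [Finset.not_disjoint_iff]
    exact ⟨p, self_mem_comp p, hp⟩
  rw [← hc.card_eq h] at hcard
  have hk : (comps (gr A) D).card = D.card := by
    have := hB.tight.zero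
    unfold cc kk at this
    omega
  have heq : meetComps (gr A) D g = comps (gr A) D := by
    refine eq_of_subset_of_card_le (fun E hE => (mem_meetComps.1 hE).1) ?_
    rw [hk]; exact hcard
  have hm : comp (gr A) D z ∈ meetComps (gr A) D g := by rw [heq]; exact comp_mem_comps hz
  have := (mem_meetComps.1 hm).2
  rw [Finset.not_disjoint_iff] at this
  obtain ⟨x, hx, hxg⟩ := this
  -- `comp D z = {z}`
  have hxz : x = z := by
    have hcl : Closed (gr A) D {z} := by
      intro p hp r hpr hr
      rw [mem_singleton] at hp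
      subst hp
      exact absurd (hs.zn p hz hzC r hpr) hr
    exact mem_singleton.1 (reachable_closed hcl (mem_singleton_self z) (mem_comp.1 hx)).1
  rw [← hxz]; exact hxg

/-- every point outside `D` and the component of `a` has a neighbour (in `D`) -/
lemma exists_nbr (h : NC A) (hs : Str A a D f) (hz : z ∉ D) (hzC : z ∉ comp (gr A) D a)
    (hd : d ∈ D) : ∃ w ∈ D, (gr A).Adj z w := by
  by_contra hno
  push Not at hno
  have hcl : ∀ x, (gr A).Reachable z x → x = z := by
    rintro x ⟨p⟩
    cases p with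
    | nil => rfl
    | cons hab _ => exact absurd hab (hno _ (hs.zn z hz hzC _ hab))
  have := hcl d (h.conn z d)
  exact hz (this ▸ hd)

/-- case (a): a point `q` of `C \ {y}` in the component of `d` with `y`, `d` nonadjacent -/
lemma caseA (hP : StmtLemmaP) (hM : StmtLemmaM) (h : NC A) (hAC : AllCrossed A)
    (hACo : AllCoupled A) (hB : Big A a D) (hs : Str A a D f) (h3 : 3 ≤ D.card)
    (hy : f ∩ comp (gr A) D a = {y}) (hd : d ∈ D)
    (hq : q ∈ comp (gr A) D a) (hqy : q ≠ y) (hdq : (del (gr A) f).Reachable d q)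
    (hna : ¬ (gr A).Adj y d) : False := by
  classical
  obtain ⟨hyf, hyC⟩ := y_mem hy
  have hyD : y ∉ D := Finset.disjoint_left.1 (comp_disjoint hB.na) hyC
  have hyd : y ≠ d := by rintro rfl; exact hyD hd
  have hqD : q ∉ D := Finset.disjoint_left.1 (comp_disjoint hB.na) hq
  have hqd : q ≠ d := by rintro rfl; exact hqD hd
  have hqT : q ∉ ({y, d} : Finset V) := by
    rw [mem_insert, mem_singleton, not_or]; exact ⟨hqy, hqd⟩
  obtain ⟨z, hzD, hzC⟩ := exists_z hs h3
  have hzT : z ∉ ({y, d} : Finset V) := by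
    rw [mem_insert, mem_singleton, not_or]
    exact ⟨by rintro rfl; exact hzC hyC, by rintro rfl; exact hzD hd⟩
  have hsub := fun v => comp_sub hs hB.na hy hd hq hqy hdq (v := v)
  have hface : A {y, d} := by
    by_contra hA
    exact hna ⟨hyd, hA⟩
  have hQR : comp (gr A) {y, d} q ≠ comp (gr A) {y, d} z := by
    intro he
    have : z ∈ comp (gr A) {y, d} q := by rw [he]; exact self_mem_comp z
    exact hzC (hsub z this).1
  have hk2 : kk (gr A) {y, d} = 2 := by
    have h1 := h.face {y, d} hface (insert_nonempty _ _)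
    unfold cc at h1
    rw [card_pair hyd] at h1
    have h2 : 2 ≤ kk (gr A) {y, d} := by
      have hpair : ({comp (gr A) {y, d} q, comp (gr A) {y, d} z} : Finset (Finset V)) ⊆
          comps (gr A) {y, d} := by
        intro E hE
        rw [mem_insert, mem_singleton] at hE
        rcases hE with rfl | rfl
        · exact comp_mem_comps hqT
        · exact comp_mem_comps hzT
      calc 2 = _ := (card_pair hQR).symm
        _ ≤ _ := card_le_card hpair
    omega
  have hcover : ∀ v, v ∉ ({y, d} : Finset V) → v ∈ comp (gr A) {y, d} q ∨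
      v ∈ comp (gr A) {y, d} z := by
    intro v hv
    by_contra hno
    rw [not_or] at hno
    have h1 : ({comp (gr A) {y, d} q, comp (gr A) {y, d} z, comp (gr A) {y, d} v} :
        Finset (Finset V)) ⊆ comps (gr A) {y, d} := by
      intro E hE
      rw [mem_insert, mem_insert, mem_singleton] at hE
      rcases hE with rfl | rfl | rfl
      · exact comp_mem_comps hqT
      · exact comp_mem_comps hzT
      · exact comp_mem_comps hv
    have h2 := card_le_card h1
    rw [card_insert_of_notMem, card_pair] at h2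
    · have : (comps (gr A) {y, d}).card = 2 := hk2
      omega
    · intro he
      exact hno.2 (by rw [he]; exact self_mem_comp v)
    · intro hm
      rw [mem_insert, mem_singleton] at hm
      rcases hm with he | he
      · exact hQR he
      · exact hno.1 (by rw [he]; exact self_mem_comp v)
  have hT : Tight A {y, d} := ⟨hface, (card_pair hyd).ge, by
    unfold cc; rw [hk2, card_pair hyd]; norm_num⟩
  obtain ⟨g, hg, hc⟩ := (hAC _ hT).cross h hT
  have hyg : y ∉ g := Finset.disjoint_left.1 hc.disj (by simp)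
  have hdg : d ∉ g := Finset.disjoint_left.1 hc.disj (by simp)
  obtain ⟨r, hrg, hrq⟩ := hc.exists_other q
  obtain ⟨s, hsg, hsz⟩ := hc.exists_other z
  have hrT : r ∉ ({y, d} : Finset V) := Finset.disjoint_right.1 hc.disj hrg
  have hsT : s ∉ ({y, d} : Finset V) := Finset.disjoint_right.1 hc.disj hsg
  have hrR : r ∈ comp (gr A) {y, d} z := by
    rcases hcover r hrT with h1 | h1
    · exact absurd (mem_comp.1 h1) hrq
    · exact h1
  have hsQ : s ∈ comp (gr A) {y, d} q := by
    rcases hcover s hsT with h1 | h1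
    · exact h1
    · exact absurd (mem_comp.1 h1) hsz
  obtain ⟨hsC, hsy, hsf⟩ := hsub s hsQ
  -- `g` meets `Z`
  have hgZ : ∃ z' ∈ g, z' ∉ D ∧ z' ∉ comp (gr A) D a := by
    by_contra hno
    push Not at hno
    have hgf : Disjoint f g := by
      rw [Finset.disjoint_right]
      intro x hx hxf
      rcases mem_cases hs hy hxf with rfl | ⟨h1, h2⟩
      · exact hyg hx
      · exact h2 (hno x hx h1)
    have hreach : (del (gr A) f).Reachable s r := by
      by_contra hnr
      exact not_cross h hs.mem hg
        (cross_of_not_reachable hgf (hs.mem.qt h) (hg.qt h) hsg hrg hnr)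
    have hdr := hsf.trans hreach
    have hrD : r ∉ D := by
      intro hrD
      have hrd : d ≠ r := by rintro rfl; exact hdg hrg
      exact hs.sep d hd r hrD hrd hdr
    have hrC : r ∈ comp (gr A) D a := hno r hrg hrD
    have hry : r ≠ y := by rintro rfl; exact hyg hrg
    have hz' : z ∈ comp (gr A) {y, d} r := by
      rw [mem_comp]; exact (mem_comp.1 hrR).symm
    exact hzC (comp_sub hs hB.na hy hd hrC hry hdr hz').1
  obtain ⟨z', hz'g, hz'D, hz'C⟩ := hgZ
  -- Lemma M
  set Z : Finset V := univ \ (D ∪ comp (gr A) D a) with hZ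
  have hmZ : ∀ v, v ∈ Z ↔ v ∉ D ∧ v ∉ comp (gr A) D a := by
    intro v; rw [hZ]; simp only [mem_sdiff, mem_univ, true_and, mem_union, not_or]
  have hfZ : f = Z ∪ {y} := by
    ext v
    rw [mem_union, mem_singleton, hmZ]
    constructor
    · intro hv
      rcases mem_cases hs hy hv with h1 | h1
      · exact Or.inr h1
      · exact Or.inl h1
    · rintro (h1 | h1)
      · exact hs.zf v h1.1 h1.2
      · rw [h1]; exact hyf
  have hMg : 0 ≤ cc (gr A) (g ∩ (D ∪ Z)) := by
    refine hM V (gr A) D Z {y} g ?_ ?_ ?_ ?_ ?_ ?_ ?_ ?_ ?_ ?_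
    · rw [Finset.disjoint_right]; intro v hv; exact ((hmZ v).1 hv).1
    · rw [Finset.disjoint_singleton_right]; exact hyD
    · rw [Finset.disjoint_singleton_right]; intro hyZ; exact ((hmZ y).1 hyZ).2 hyC
    · intro v hv w hvw; exact hs.zn v ((hmZ v).1 hv).1 ((hmZ v).1 hv).2 w hvw
    · rw [← hfZ]; exact hs.sep
    · intro v hv
      by_cases hvf : v ∈ f
      · rcases mem_cases hs hy hvf with rfl | h1
        · exact absurd hv hyg
        · exact Or.inl ((hmZ v).2 h1)
      · right
        rw [← hfZ]
        exact cover h hs hy hvf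
    · exact ⟨z', mem_inter.2 ⟨hz'g, (hmZ z').2 ⟨hz'D, hz'C⟩⟩⟩
    · exact fun X hX hne => h.cc_ssubset hg.1 X hX hne
    · exact h.nonface g hg.1 hg.2
    · intro p hp r hr
      rw [mem_singleton] at hp hr
      subst hp; subst hr
      exact SimpleGraph.Reachable.refl _
  -- `A' = g ∩ (D ∪ Z)` is a tight face
  have hss : g ∩ (D ∪ Z) ⊂ g := by
    rw [Finset.ssubset_iff_subset_ne]
    refine ⟨inter_subset_left, fun he => ?_⟩
    have : s ∈ g ∩ (D ∪ Z) := by rw [he]; exact hsg
    rcases mem_union.1 (mem_inter.1 this).2 with h1 | h1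
    · exact Finset.disjoint_left.1 (comp_disjoint hB.na) hsC h1
    · exact ((hmZ s).1 h1).2 hsC
  have hA' : A (g ∩ (D ∪ Z)) := hg.1.2 _ hss
  have hz'A : z' ∈ g ∩ (D ∪ Z) := mem_inter.2 ⟨hz'g, mem_union_right _ ((hmZ z').2 ⟨hz'D, hz'C⟩)⟩
  have h2 : 2 ≤ (g ∩ (D ∪ Z)).card := by
    by_cases hgD : Disjoint D g
    · have hall : Z ⊆ g ∩ (D ∪ Z) := by
        intro v hv
        refine mem_inter.2 ⟨?_, mem_union_right _ hv⟩
        refine all_z h hB hs hg hgD hsg hz'g ?_ ((hmZ v).1 hv).1 ((hmZ v).1 hv).2
        intro hr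
        refine hz'C ?_
        rw [mem_comp]
        exact (mem_comp.1 hsC).trans hr
      have hc1 := hs.card
      rw [← hZ] at hc1
      have := card_le_card hall
      omega
    · rw [Finset.not_disjoint_iff] at hgD
      obtain ⟨p, hpD, hpg⟩ := hgD
      have hne : p ≠ z' := by rintro rfl; exact hz'D hpD
      have hsub2 : ({p, z'} : Finset V) ⊆ g ∩ (D ∪ Z) := by
        intro x hx
        rw [mem_insert, mem_singleton] at hx
        rcases hx with rfl | rfl
        · exact mem_inter.2 ⟨hpg, mem_union_left _ hpD⟩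
        · exact hz'A
      calc 2 = _ := (card_pair hne).symm
        _ ≤ _ := card_le_card hsub2
  have hle := h.face _ hA' ⟨z', hz'A⟩
  have htA : Tight A (g ∩ (D ∪ Z)) := ⟨hA', h2, le_antisymm hle hMg⟩
  have hdis : Disjoint (g ∩ (D ∪ Z)) (comp (gr A) D a) := by
    rw [Finset.disjoint_left]
    intro x hx hxC
    rcases mem_union.1 (mem_inter.1 hx).2 with h1 | h1
    · exact Finset.disjoint_left.1 (comp_disjoint hB.na) hxC h1
    · exact ((hmZ x).1 h1).2 hxC
  have hEq := hP V A a D _ h hAC hACo hB htA hdis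
  rw [hEq] at hz'A
  exact hz'D hz'A

/-- case (b): all pairs adjacent -/
lemma caseB (hCoup : StmtCoup) (hP : StmtLemmaP) (h : NC A) (hr : Root A a b)
    (hAC : AllCrossed A) (hACo : AllCoupled A) (hB : Big A a D) (hs : Str A a D f)
    (h3 : 3 ≤ D.card) (hy : f ∩ comp (gr A) D a = {y})
    (h2 : 2 ≤ (comp (gr A) D a).card)
    (hadj : ∀ d ∈ D, ∀ q ∈ comp (gr A) D a, q ≠ y → (del (gr A) f).Reachable d q →
      (gr A).Adj y d) : False := by
  classical
  obtain ⟨hyf, hyC⟩ := y_mem hy
  have hyD : y ∉ D := Finset.disjoint_left.1 (comp_disjoint hB.na) hyC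
  have hbC := b_not_mem hr hB
  obtain ⟨z, hzD, hzC⟩ := exists_z hs h3
  -- all points of `C \ {y}` are attached to the same `d`
  have hqf : ∀ q ∈ comp (gr A) D a, q ≠ y → q ∉ f := by
    intro q hq hqy hqf
    rcases mem_cases hs hy hqf with h1 | h1
    · exact hqy h1
    · exact h1.2 hq
  have hsame : ∃ d ∈ D, ∀ q ∈ comp (gr A) D a, q ≠ y → (del (gr A) f).Reachable d q := by
    by_cases hay : a = y
    · -- then `d = b` always
      have hb : ∀ d ∈ D, ∀ q ∈ comp (gr A) D a, q ≠ y → (del (gr A) f).Reachable d q → d = b := by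
        intro d hd q hq hqy hdq
        have hyd : y ≠ d := by rintro rfl; exact hyD hd
        have hqD : q ∉ D := Finset.disjoint_left.1 (comp_disjoint hB.na) hq
        have hqT : q ∉ ({y, d} : Finset V) := by
          rw [mem_insert, mem_singleton, not_or]
          exact ⟨hqy, by rintro rfl; exact hqD hd⟩
        have hsub := fun v => comp_sub hs hB.na hy hd hq hqy hdq (v := v)
        have hE : comp (gr A) {y, d} q ∈ comps (gr A) {d, y} := by
          rw [Finset.pair_comm d y]; exact comp_mem_comps hqT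
        have hzQ : z ∉ comp (gr A) {y, d} q := fun hzQ => hzC (hsub z hzQ).1
        obtain ⟨k, -, -, -, -, -, ht, -, hout, -⟩ := hCoup V A d y _ h hAC hACo
          (hadj d hd q hq hqy hdq).symm hE
          ⟨z, hzQ, by rintro rfl; exact hzD hd, by rintro rfl; exact hzC hyC⟩
        have hyQ : y ∉ insert d (comp (gr A) {y, d} q) := by
          rw [mem_insert, not_or]
          exact ⟨hyd, fun hyQ => (hsub y hyQ).2.1 rfl⟩
        by_contra hdb
        have hbQ : b ∉ insert d (comp (gr A) {y, d} q) := by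
          rw [mem_insert, not_or]
          exact ⟨fun he => hdb he.symm, fun hbQ => hbC (hsub b hbQ).1⟩
        have hTsub : insert d (k ∩ comp (gr A) {y, d} q) ⊆ insert d (comp (gr A) {y, d} q) :=
          insert_subset_insert d inter_subset_right
        rcases hr _ ht with h1 | h1 | h1
        · exact hyQ (hTsub (hay ▸ h1))
        · exact hbQ (hTsub h1)
        · exact h1 (hay ▸ hout y b hyQ hbQ)
      obtain ⟨q, hq, hqy⟩ : ∃ q ∈ comp (gr A) D a, q ≠ y :=
        Finset.exists_mem_ne (by omega) y
      obtain ⟨d, hd, hdq⟩ := cover h hs hy (hqf q hq hqy)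
      refine ⟨d, hd, fun q' hq' hqy' => ?_⟩
      obtain ⟨d', hd', hdq'⟩ := cover h hs hy (hqf q' hq' hqy')
      have e1 := hb d hd q hq hqy hdq
      have e2 := hb d' hd' q' hq' hqy' hdq'
      rw [e1, ← e2]; exact hdq'
    · -- every component contains `a`
      have haC : a ∈ comp (gr A) D a := self_mem_comp a
      obtain ⟨d, hd, hda⟩ := cover h hs hy (hqf a haC hay)
      refine ⟨d, hd, fun q hq hqy => ?_⟩
      obtain ⟨d', hd', hdq⟩ := cover h hs hy (hqf q hq hqy)
      have hyd : y ≠ d' := by rintro rfl; exact hyD hd'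
      have hqD : q ∉ D := Finset.disjoint_left.1 (comp_disjoint hB.na) hq
      have hqT : q ∉ ({y, d'} : Finset V) := by
        rw [mem_insert, mem_singleton, not_or]
        exact ⟨hqy, by rintro rfl; exact hqD hd'⟩
      have hsub := fun v => comp_sub hs hB.na hy hd' hq hqy hdq (v := v)
      have hzQ : z ∉ comp (gr A) {y, d'} q := fun hzQ => hzC (hsub z hzQ).1
      by_cases haQ : a ∈ comp (gr A) {y, d'} q
      · have h1 := (hsub a haQ).2.2
        have hdd : d' = d := by
          by_contra hne
          exact hs.sep d' hd' d hd hne (h1.trans hda.symm)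
        rw [← hdd]; exact hdq
      · exfalso
        obtain ⟨k, -, -, -, -, -, ht, -, hout, -⟩ := hCoup V A y d' _ h hAC hACo
          (hadj d' hd' q hq hqy hdq) (comp_mem_comps hqT)
          ⟨z, hzQ, by rintro rfl; exact hzC hyC, by rintro rfl; exact hzD hd'⟩
        have haQ' : a ∉ insert y (comp (gr A) {y, d'} q) := by
          rw [mem_insert, not_or]; exact ⟨hay, haQ⟩
        have hbQ : b ∉ insert y (comp (gr A) {y, d'} q) := by
          rw [mem_insert, not_or]
          exact ⟨by rintro rfl; exact hbC hyC, fun hbQ => hbC (hsub b hbQ).1⟩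
        have hTsub : insert y (k ∩ comp (gr A) {y, d'} q) ⊆ insert y (comp (gr A) {y, d'} q) :=
          insert_subset_insert y inter_subset_right
        rcases hr _ ht with h1 | h1 | h1
        · exact haQ' (hTsub h1)
        · exact hbQ (hTsub h1)
        · exact h1 (hout a b haQ' hbQ)
  obtain ⟨d, hd, hall⟩ := hsame
  obtain ⟨q, hq, hqy⟩ : ∃ q ∈ comp (gr A) D a, q ≠ y := Finset.exists_mem_ne (by omega) y
  have hdq := hall q hq hqy
  have hyd : y ≠ d := by rintro rfl; exact hyD hd
  have hqD : q ∉ D := Finset.disjoint_left.1 (comp_disjoint hB.na) hq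
  have hzT : z ∉ ({d, y} : Finset V) := by
    rw [mem_insert, mem_singleton, not_or]
    exact ⟨by rintro rfl; exact hzD hd, by rintro rfl; exact hzC hyC⟩
  -- the component `E` of `z` in `G - {y, d}` lies in `D ∪ Z`
  have hEsub : ∀ v ∈ comp (gr A) {d, y} z, v ∉ comp (gr A) D a := by
    intro v hv hvC
    have hvT : v ∉ ({d, y} : Finset V) := not_mem_of_reachable (mem_comp.1 hv) hzT
    rw [mem_insert, mem_singleton, not_or] at hvT
    have hz' : z ∈ comp (gr A) {y, d} v := by
      rw [Finset.pair_comm y d, mem_comp]; exact (mem_comp.1 hv).symm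
    exact hzC (comp_sub hs hB.na hy hd hvC hvT.2 (hall v hvC hvT.2) hz').1
  obtain ⟨k, hk, hdk, hyk, -, -, ht, -, -, -⟩ := hCoup V A d y _ h hAC hACo
    (hadj d hd q hq hqy hdq).symm (comp_mem_comps hzT)
    ⟨q, fun hqE => hEsub q hqE hq, by rintro rfl; exact hqD hd, hqy⟩
  have hdis : Disjoint (insert d (k ∩ comp (gr A) {d, y} z)) (comp (gr A) D a) := by
    rw [Finset.disjoint_left]
    intro x hx hxC
    rw [mem_insert, mem_inter] at hx
    rcases hx with rfl | ⟨_, hx⟩
    · exact Finset.disjoint_left.1 (comp_disjoint hB.na) hxC hd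
    · exact hEsub x hx hxC
  have hEq := hP V A a D _ h hAC hACo hB ht hdis
  have hDk : D ⊆ k := by
    intro x hx
    rw [← hEq, mem_insert, mem_inter] at hx
    rcases hx with rfl | ⟨hx, _⟩
    · exact hdk
    · exact hx
  have hkf : Disjoint f k := by
    rw [Finset.disjoint_left]
    intro x hx hxk
    rcases mem_cases hs hy hx with rfl | ⟨hxD, hxC⟩
    · exact hyk hxk
    · obtain ⟨w, hw, hxw⟩ := exists_nbr h hs hxD hxC hd
      -- `{x, w} ⊂ k` is a face
      refine hxw.2 (hk.1.2 _ ?_)
      rw [Finset.ssubset_iff_subset_ne]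
      refine ⟨?_, fun he => ?_⟩
      · intro t ht'
        rw [mem_insert, mem_singleton] at ht'
        rcases ht' with rfl | rfl
        · exact hxk
        · exact hDk hw
      · have h4 := hk.2
        rw [← he] at h4
        have h5 : ({x, w} : Finset V).card ≤ 2 := card_le_two
        omega
  obtain ⟨d', hd', hne⟩ : ∃ d' ∈ D, d' ≠ d := Finset.exists_mem_ne (by omega) d
  exact not_cross h hs.mem hk (cross_of_not_reachable hkf (hs.mem.qt h) (hk.qt h) (hDk hd')
    (hDk hd) (hs.sep d' hd' d hd hne))

end YoneAux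

/-- **5.7** -/
theorem yone (hCoup : StmtCoup) (hP : StmtLemmaP) (hM : StmtLemmaM) : StmtYone := by
  intro V _ _ A a b D f h hr hAC hACo hB hs h3 h1 h2
  obtain ⟨y, hy⟩ := card_eq_one.1 h1
  by_cases hex : ∃ d ∈ D, ∃ q ∈ comp (gr A) D a, q ≠ y ∧ (del (gr A) f).Reachable d q ∧
      ¬ (gr A).Adj y d
  · obtain ⟨d, hd, q, hq, hqy, hdq, hna⟩ := hex
    exact YoneAux.caseA hP hM h hAC hACo hB hs h3 hy hd hq hqy hdq hna
  · push Not at hex
    exact YoneAux.caseB hCoup hP h hr hAC hACo hB hs h3 hy h2 hex

end Pool.Agent.Chrom
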