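import Pool.Agent.Lib_helper90.Chrom.NC

/-!
# Lemma M of note 1214 (regions) and Lemma P (pure graph forms)
-/

open Finset

namespace Pool.Agent.Chrom

variable {V : Type*} [Fintype V] [DecidableEq V]

set_option linter.unusedSectionVars false

variable {G : SimpleGraph V} {S T C D E X R Y W : Finset V} {d u v w : V}

/-- a component of `G - S` which meets the region `R` but avoids the exits `d` and `Y` lies inside
`R` and is a component of `G - X`, `X` the part of `S` in `R ∪ {d}` -/
lemma region_comp (hN : ∀ u ∈ R, ∀ v, G.Adj u v → v ∈ R ∨ v = d ∨ v ∈ Y) (hYS : Disjoint Y S)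
    (hC : C ∈ comps G S) (hCd : d ∉ C) (hCY : Disjoint C Y) {x : V} (hxC : x ∈ C) (hxR : x ∈ R) :
    C ⊆ R ∧ C ∈ comps G ((S ∩ R) ∪ (S ∩ {d})) := by
  have hCR : C ⊆ R := by
    have hcl : Closed G S (C ∩ R) := by
      intro a ha b hab hb
      rw [mem_inter] at ha ⊢
      have hbC : b ∈ C := comps_closed hC ha.1 hab hb
      refine ⟨hbC, ?_⟩
      rcases hN a ha.2 b hab with h | h | h
      · exact h
      · exact absurd (h ▸ hbC) hCd
      · exact absurd h (Finset.disjoint_left.1 hCY hbC)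
    intro y hy
    have hr : (del G S).Reachable x y := by
      rw [← mem_comp, comp_eq_of_mem_comps hC hxC]; exact hy
    exact (mem_inter.1 (reachable_closed hcl (mem_inter.2 ⟨hxC, hxR⟩) hr).1).2
  refine ⟨hCR, comps_of_comps hC ?_ ?_⟩
  · refine Finset.disjoint_of_subset_right ?_ (comps_disjoint_S hC)
    exact union_subset inter_subset_left inter_subset_left
  · intro a ha b hab hbC
    have hbS : b ∈ S := by
      by_contra hb
      exact hbC (comps_closed hC ha hab hb)
    rcases hN a (hCR ha) b hab with h | h | h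
    · exact mem_union_left _ (mem_inter.2 ⟨hbS, h⟩)
    · exact mem_union_right _ (mem_inter.2 ⟨hbS, by rw [h]; exact mem_singleton_self d⟩)
    · exact absurd hbS (Finset.disjoint_left.1 hYS h)

/-- **Lemma M, one region.** -/
theorem region_step (hdR : d ∉ R) (hY : Y.Nonempty)
    (hN : ∀ u ∈ R, ∀ v, G.Adj u v → v ∈ R ∨ v = d ∨ v ∈ Y) (hYS : Disjoint Y S)
    (hone : (meetComps G S Y).card ≤ 1)
    (hX : (S ∩ R).Nonempty → cc G ((S ∩ R) ∪ (S ∩ {d})) ≤ 0) :
    cc G S ≤ cc G (S \ R) := by
  classical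
  by_cases hne : (S ∩ R).Nonempty
  swap
  · rw [Finset.not_nonempty_iff_eq_empty, ← disjoint_iff_inter_eq_empty] at hne
    rw [Finset.sdiff_eq_self_of_disjoint hne]
  have hX' := hX hne
  have hW : S ∩ R ⊆ S := inter_subset_left
  have e1 : S \ R = S \ (S ∩ R) := by ext z; simp only [mem_sdiff, mem_inter]; tauto
  have h1 := le_kk_sdiff (G := G) hW hne
  -- the components near `W`
  set X : Finset V := (S ∩ R) ∪ (S ∩ {d}) with hXdef
  obtain ⟨y, hy⟩ := hY
  have hyS : y ∉ S := Finset.disjoint_left.1 hYS hy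
  have hyX : y ∉ X := by
    intro h
    rcases mem_union.1 h with h | h
    · exact hyS (mem_inter.1 h).1
    · exact hyS (mem_inter.1 h).1
  have hsub : nearComps G S (S ∩ R) ⊆
      ((comps G X).erase (comp G X y)) ∪ ({comp G S y} ∪ (if d ∈ S then ∅ else {comp G S d})) := by
    intro C hC
    obtain ⟨hC1, x, hx, v, hvC, hxv⟩ := mem_nearComps.1 hC
    rw [mem_inter] at hx
    by_cases hCY : Disjoint C Y
    · by_cases hCd : d ∈ C
      · have hdS : d ∉ S := Finset.disjoint_left.1 (comps_disjoint_S hC1) hCd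
        rw [if_neg hdS]
        refine mem_union_right _ (mem_union_right _ ?_)
        rw [mem_singleton, comp_eq_of_mem_comps hC1 hCd]
      · -- `v ∈ R`
        have hvR : v ∈ R := by
          rcases hN x hx.2 v hxv with h | h | h
          · exact h
          · exact absurd (h ▸ hvC) hCd
          · exact absurd h (Finset.disjoint_left.1 hCY hvC)
        obtain ⟨hCR, hCX⟩ := region_comp hN hYS hC1 hCd hCY hvC hvR
        refine mem_union_left _ (mem_erase.2 ⟨?_, hCX⟩)
        intro he
        exact Finset.disjoint_left.1 hCY (he ▸ self_mem_comp y) hy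
    · rw [Finset.not_disjoint_iff] at hCY
      obtain ⟨y', hy'C, hy'⟩ := hCY
      refine mem_union_right _ (mem_union_left _ ?_)
      rw [mem_singleton]
      have hm1 : C ∈ meetComps G S Y := mem_meetComps.2 ⟨hC1, by
        rw [Finset.not_disjoint_iff]; exact ⟨y', hy'C, hy'⟩⟩
      have hm2 : comp G S y ∈ meetComps G S Y := mem_meetComps.2 ⟨comp_mem_comps hyS, by
        rw [Finset.not_disjoint_iff]; exact ⟨y, self_mem_comp y, hy⟩⟩
      exact card_le_one.1 hone _ hm1 _ hm2
  have hcard := (card_le_card hsub).trans (card_union_le _ _)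
  have hcard2 := card_union_le ({comp G S y} : Finset (Finset V))
    (if d ∈ S then ∅ else {comp G S d})
  rw [card_erase_of_mem (comp_mem_comps hyX)] at hcard
  have hkpos : 0 < (comps G X).card := card_pos.2 ⟨_, comp_mem_comps hyX⟩
  have hXcard : (kk G X : ℤ) ≤ X.card := by
    unfold cc at hX'; linarith
  have hXc : X.card = (S ∩ R).card + (S ∩ {d}).card := by
    rw [hXdef, card_union_of_disjoint]
    rw [Finset.disjoint_left]
    intro z hz hz'
    have hzd : z = d := mem_singleton.1 (mem_inter.1 hz').2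
    exact hdR (hzd ▸ (mem_inter.1 hz).2)
  have hkk : kk G X = (comps G X).card := rfl
  have hSc : (S \ (S ∩ R)).card + (S ∩ R).card = S.card := card_sdiff_add_card_eq_card hW
  rw [e1]
  by_cases hdS : d ∈ S
  · have e2 : (S ∩ {d}).card = 1 := by
      have : S ∩ {d} = {d} := inter_eq_right.2 (singleton_subset_iff.2 hdS)
      rw [this, card_singleton]
    rw [if_pos hdS, card_empty, card_singleton] at hcard2
    unfold cc
    have h5 : (kk G X : ℤ) ≤ (S ∩ R).card + 1 := by rw [hXc, e2] at hXcard; exact_mod_cast hXcard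
    have h6 : kk G X ≤ (S ∩ R).card + 1 := by exact_mod_cast h5
    have h7 : kk G S ≤ kk G (S \ (S ∩ R)) + (S ∩ R).card := by
      rw [if_pos hdS] at hcard
      omega
    have h8 : (kk G S : ℤ) ≤ kk G (S \ (S ∩ R)) + (S ∩ R).card := by exact_mod_cast h7
    have h9 : ((S \ (S ∩ R)).card : ℤ) + (S ∩ R).card = S.card := by exact_mod_cast hSc
    linarith
  · have e2 : (S ∩ {d}).card = 0 := by
      rw [card_eq_zero, ← disjoint_iff_inter_eq_empty, disjoint_singleton_right]
      exact hdS
    rw [if_neg hdS, card_singleton, card_singleton] at hcard2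
    unfold cc
    have h5 : (kk G X : ℤ) ≤ (S ∩ R).card := by
      rw [hXc, e2] at hXcard; simpa using hXcard
    have h6 : kk G X ≤ (S ∩ R).card := by exact_mod_cast h5
    have h7 : kk G S ≤ kk G (S \ (S ∩ R)) + (S ∩ R).card := by
      rw [if_neg hdS] at hcard
      omega
    have h8 : (kk G S : ℤ) ≤ kk G (S \ (S ∩ R)) + (S ∩ R).card := by exact_mod_cast h7
    have h9 : ((S \ (S ∩ R)).card : ℤ) + (S ∩ R).card = S.card := by exact_mod_cast hSc
    linarith

/-- **Lemma M** (5.5 of note 1214): regions `Rg d`, `d ∈ D`. -/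
theorem region_iter (Rg : V → Finset V) (D : Finset V) (hY : Y.Nonempty)
    (hdR : ∀ d ∈ D, ∀ d' ∈ D, d ∉ Rg d')
    (hdis : ∀ d ∈ D, ∀ d' ∈ D, d ≠ d' → Disjoint (Rg d) (Rg d'))
    (hN : ∀ d ∈ D, ∀ u ∈ Rg d, ∀ v, G.Adj u v → v ∈ Rg d ∨ v = d ∨ v ∈ Y) (hYS : Disjoint Y S)
    (hone : (meetComps G S Y).card ≤ 1)
    (hX : ∀ d ∈ D, (S ∩ Rg d).Nonempty → cc G ((S ∩ Rg d) ∪ (S ∩ {d})) ≤ 0) :
    cc G S ≤ cc G (S \ D.biUnion Rg) := by
  classical
  have key : ∀ D' : Finset V, D' ⊆ D → cc G S ≤ cc G (S \ D'.biUnion Rg) := by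
    intro D'
    induction D' using Finset.induction_on with
    | empty => intro _; simp
    | @insert d D' hd ih =>
      intro hsub
      have hdD : d ∈ D := hsub (mem_insert_self d D')
      have hD' : D' ⊆ D := (subset_insert d D').trans hsub
      refine (ih hD').trans ?_
      have e0 : S \ (insert d D').biUnion Rg = (S \ D'.biUnion Rg) \ Rg d := by
        ext z
        simp only [mem_sdiff, mem_biUnion, mem_insert]
        constructor
        · rintro ⟨h1, h2⟩
          exact ⟨⟨h1, fun ⟨a, ha, hz⟩ => h2 ⟨a, Or.inr ha, hz⟩⟩, fun hz => h2 ⟨d, Or.inl rfl, hz⟩⟩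
        · rintro ⟨⟨h1, h2⟩, h3⟩
          refine ⟨h1, ?_⟩
          rintro ⟨a, ha | ha, hz⟩
          · exact h3 (ha ▸ hz)
          · exact h2 ⟨a, ha, hz⟩
      have e1 : (S \ D'.biUnion Rg) ∩ Rg d = S ∩ Rg d := by
        ext z
        simp only [mem_sdiff, mem_inter, mem_biUnion]
        constructor
        · rintro ⟨⟨h1, _⟩, h2⟩; exact ⟨h1, h2⟩
        · rintro ⟨h1, h2⟩
          refine ⟨⟨h1, ?_⟩, h2⟩
          rintro ⟨a, ha, hz⟩
          have hne : d ≠ a := by rintro rfl; exact hd ha
          exact Finset.disjoint_left.1 (hdis d hdD a (hD' ha) hne) h2 hz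
      have e2 : (S \ D'.biUnion Rg) ∩ {d} = S ∩ {d} := by
        ext z
        simp only [mem_sdiff, mem_inter, mem_biUnion, mem_singleton]
        constructor
        · rintro ⟨⟨h1, _⟩, h2⟩; exact ⟨h1, h2⟩
        · rintro ⟨h1, rfl⟩
          refine ⟨⟨h1, ?_⟩, rfl⟩
          rintro ⟨a, ha, hz⟩
          exact hdR _ hdD a (hD' ha) hz
      rw [e0]
      refine region_step (d := d) (hdR d hdD d hdD) hY (hN d hdD)
        (hYS.mono_right sdiff_subset) ?_ ?_
      · refine meet_le_of_reachable ?_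
        intro a ha b hb
        have := reachable_of_meet_le hYS.symm hone ha hb
        exact this.mono (del_mono sdiff_subset)
      · rw [e1, e2]; exact hX d hdD
  exact key D (Subset.refl D)

/-- a nonempty set closed under adjacency is everything -/
lemma eq_univ_of_closed (hG : G.Preconnected) (hX : X.Nonempty)
    (hcl : ∀ u ∈ X, ∀ v, G.Adj u v → v ∈ X) (v : V) : v ∈ X := by
  obtain ⟨x, hx⟩ := hX
  obtain ⟨p⟩ := hG x v
  induction p with
  | nil => exact hx
  | @cons a b c hab p ih => exact ih (hcl a hx b hab)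

/-- **Lemma P** (5.4 of note 1214), pure graph form: `V = C ∪ D ∪ Z = C ∪ E ∪ Z'` where all vertices
of `Z` have their neighbours in `D`, all vertices of `Z'` have their neighbours in `E`, and `D`, `E`
are independent.  Then `D = E`. -/
theorem lemmaP_graph (hG : G.Preconnected) (hC : C.Nonempty) (hCD : Disjoint C D)
    (hCE : Disjoint C E) (hD : ∀ u ∈ D, ∀ v ∈ D, ¬ G.Adj u v) (hE : ∀ u ∈ E, ∀ v ∈ E, ¬ G.Adj u v)
    (hZ : ∀ z, z ∉ C → z ∉ D → ∀ v, G.Adj z v → v ∈ D)
    (hZ' : ∀ z, z ∉ C → z ∉ E → ∀ v, G.Adj z v → v ∈ E) : D = E := by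
  classical
  by_contra hne
  set X : Finset V := (D \ E) ∪ (E \ D) with hX
  have hXne : X.Nonempty := by
    by_contra h
    rw [Finset.not_nonempty_iff_eq_empty] at h
    apply hne
    ext z
    have h1 : z ∉ X := by rw [h]; exact Finset.notMem_empty z
    rw [hX, mem_union, mem_sdiff, mem_sdiff] at h1
    tauto
  have hcl : ∀ u ∈ X, ∀ v, G.Adj u v → v ∈ X := by
    intro u hu v huv
    rw [hX, mem_union, mem_sdiff, mem_sdiff] at hu ⊢
    rcases hu with ⟨hu1, hu2⟩ | ⟨hu1, hu2⟩
    · right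
      exact ⟨hZ' u (Finset.disjoint_right.1 hCD hu1) hu2 v huv, fun hv => hD u hu1 v hv huv⟩
    · left
      exact ⟨hZ u (Finset.disjoint_right.1 hCE hu1) hu2 v huv, fun hv => hE u hu1 v hv huv⟩
  obtain ⟨c, hc⟩ := hC
  have := eq_univ_of_closed hG hXne hcl c
  rw [hX, mem_union, mem_sdiff, mem_sdiff] at this
  rcases this with h | h
  · exact Finset.disjoint_left.1 hCD hc h.1
  · exact Finset.disjoint_left.1 hCE hc h.1

end Pool.Agent.Chrom
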